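import Pool.Agent.W95.BK.Stm

/-!
# BK-S2: the equality case
-/

set_option autoImplicit false

namespace Pool.Agent.W410.BK

open Polynomial
open Pool.Agent.W95.BK

universe u

theorem nsub_le {K : Type u} [NontriviallyNormedField K] [IsUltrametricDist K] (x y : K) :
    ‖x - y‖ ≤ max ‖x‖ ‖y‖ := by
  rw [sub_eq_add_neg, ← norm_neg y]
  exact IsUltrametricDist.norm_add_le_max _ _

open Classical in
theorem count_le {K : Type u} (Z : Finset K) (D : K → Set K) (E : Set K) (w : K) (m : Multiset K)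
    (h : ∀ u, ∑ z ∈ Z, (if u ∈ D z then 1 else 0) + (if u = w then 1 else 0) ≤
      if u ∈ E then 1 else 0) :
    ∑ z ∈ Z, (m.filter (fun u => u ∈ D z)).card + (m.filter (fun u => u = w)).card ≤
      (m.filter (fun u => u ∈ E)).card := by
  induction m using Multiset.induction_on with
  | empty => simp
  | cons v m ih =>
    have e : ∀ (p : K → Prop), ((v ::ₘ m).filter p).card =
        (m.filter p).card + if p v then 1 else 0 := by
      intro p
      by_cases hp : p v
      · rw [Multiset.filter_cons_of_pos _ hp, Multiset.card_cons, if_pos hp]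
      · rw [Multiset.filter_cons_of_neg _ hp, if_neg hp, add_zero]
    rw [e, e, Finset.sum_congr rfl (fun z _ => e (fun u => u ∈ D z)), Finset.sum_add_distrib]
    have := h v
    omega

theorem nIn_le {K : Type u} [NontriviallyNormedField K] [IsUltrametricDist K] {h : K[X]} (h0 : h ≠ 0) {w : K} (hw : h.eval w = 0) (a : K)
    (r : ℝ) (Z : Finset K) (hwa : ‖w - a‖ ≤ r) (hwz : ∀ z ∈ Z, r ≤ ‖w - z‖)
    (hz : ∀ z ∈ Z, ‖z - a‖ ≤ r) (hzz : ∀ z ∈ Z, ∀ z' ∈ Z, z ≠ z' → r ≤ ‖z - z'‖) :
    ∑ z ∈ Z, nIn h {u | ‖u - z‖ < r} + 1 ≤ nIn h {u | ‖u - a‖ ≤ r} := by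
  classical
  have key := count_le Z (fun z => {u | ‖u - z‖ < r}) {u | ‖u - a‖ ≤ r} w h.roots (by
    intro u
    by_cases hu : ∃ z ∈ Z, ‖u - z‖ < r
    · obtain ⟨z, hzZ, huz⟩ := hu
      have h1 : ∑ z ∈ Z, (if u ∈ {u | ‖u - z‖ < r} then 1 else 0) = 1 := by
        rw [Finset.sum_eq_single z]
        · exact if_pos huz
        · intro z' hz' hne
          refine if_neg ?_
          intro huz'
          have h2 : ‖z' - z‖ < r := by
            have e : z' - z = (u - z) - (u - z') := by ring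
            rw [e]
            exact (nsub_le _ _).trans_lt (max_lt huz huz')
          exact absurd (hzz z' hz' z hzZ hne) (not_le.2 h2)
        · intro h; exact absurd hzZ h
      have h2 : u ≠ w := by
        rintro rfl
        exact absurd (hwz z hzZ) (not_le.2 huz)
      have h3 : ‖u - a‖ ≤ r := by
        have e : u - a = (u - z) + (z - a) := by ring
        rw [e]
        exact (IsUltrametricDist.norm_add_le_max _ _).trans (max_le huz.le (hz z hzZ))
      rw [h1, if_neg h2, if_pos (show u ∈ {u | ‖u - a‖ ≤ r} from h3)]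
    · have h1 : ∑ z ∈ Z, (if u ∈ {u | ‖u - z‖ < r} then 1 else 0) = 0 := by
        refine Finset.sum_eq_zero (fun z hz => if_neg ?_)
        intro h
        exact hu ⟨z, hz, h⟩
      rw [h1, zero_add]
      by_cases h2 : u = w
      · rw [if_pos h2, if_pos]
        rw [h2]
        exact hwa
      · rw [if_neg h2]
        exact Nat.zero_le _)
  have h1 : 1 ≤ (h.roots.filter (fun u => u = w)).card :=
    Multiset.card_pos_iff_exists_mem.2 ⟨w, Multiset.mem_filter.2 ⟨(mem_roots h0).2 hw, rfl⟩⟩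
  unfold nIn
  refine le_trans ?_ key
  exact Nat.add_le_add_left h1 _

section algebra

variable {K : Type u} [NontriviallyNormedField K] [IsUltrametricDist K]

theorem le_gn (a : K) {r : ℝ} (hr : 0 ≤ r) (h : K[X]) (i : ℕ) :
    ‖(taylor a h).coeff i‖ * r ^ i ≤ gn a r h :=
  Polynomial.le_gaussNorm (NormedField.toAbsoluteValue K) (taylor a h) hr i

theorem gn_zero (a : K) (r : ℝ) : gn a r (0 : K[X]) = 0 := by
  unfold gn
  rw [map_zero]
  exact Polynomial.gaussNorm_zero _ _

/-- the coefficients in the equality case -/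
theorem coeffs (f : RMap K) (a : K) (r r' : ℝ) (hr : 0 < r) (hrr' : r < r') (k : ℕ) (M : ℝ)
    (hM : 0 < M) (h1 : vI f a r (k + 1) = M) (h2 : vI f a r k ≤ M)
    (h3 : vI f a r' (k + 1) ≤ vI f a r' k) :
    ‖(taylor a (f.P - C a * f.Q)).coeff (k + 1)‖ * r ^ (k + 1) = M ∧
    r * ‖(taylor a f.Q).coeff (k + 1)‖ * r ^ (k + 1) < M ∧
    r * ‖(taylor a f.Q).coeff k‖ * r ^ k = M := by
  unfold vI at h1 h2 h3
  set p := ‖(taylor a (f.P - C a * f.Q)).coeff (k + 1)‖ with hp
  set q := ‖(taylor a f.Q).coeff (k + 1)‖ with hq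
  set p₀ := ‖(taylor a (f.P - C a * f.Q)).coeff k‖ with hp₀
  set q₀ := ‖(taylor a f.Q).coeff k‖ with hq₀
  have hp' : 0 ≤ p := norm_nonneg _
  have hq' : 0 ≤ q := norm_nonneg _
  have hp₀' : 0 ≤ p₀ := norm_nonneg _
  have hq₀' : 0 ≤ q₀ := norm_nonneg _
  have hr' : 0 < r' := hr.trans hrr'
  rw [max_mul_of_nonneg _ _ (by positivity)] at h1 h2 h3
  rw [max_mul_of_nonneg _ _ (by positivity)] at h3
  obtain ⟨t, ht⟩ : ∃ t, r' = t * r := ⟨r' / r, by field_simp⟩
  have ht1 : 1 < t := by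
    by_contra h
    push Not at h
    nlinarith
  have ht0 : 0 < t := by linarith
  subst ht
  have htk : 0 < t ^ k := by positivity
  have g0 : p₀ * r ^ k ≤ M := (le_max_left _ _).trans h2
  have g1 : r * q₀ * r ^ k ≤ M := (le_max_right _ _).trans h2
  have g2 : p * r ^ (k + 1) ≤ M := (le_max_left _ _).trans h1.le
  have g3 : r * q * r ^ (k + 1) ≤ M := (le_max_right _ _).trans h1.le
  -- the right-hand side of h3
  have e1 : p₀ * (t * r) ^ k = t ^ k * (p₀ * r ^ k) := by rw [mul_pow]; ring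
  have e2 : t * r * q₀ * (t * r) ^ k = t ^ (k + 1) * (r * q₀ * r ^ k) := by rw [mul_pow]; ring
  have e3 : p * (t * r) ^ (k + 1) = t ^ (k + 1) * (p * r ^ (k + 1)) := by rw [mul_pow]; ring
  have e4 : t * r * q * (t * r) ^ (k + 1) = t ^ (k + 2) * (r * q * r ^ (k + 1)) := by
    rw [mul_pow]; ring
  rw [e1, e2, e3, e4] at h3
  have htk1 : 0 < t ^ (k + 1) := by positivity
  have htk2 : t ^ k < t ^ (k + 1) := by
    rw [pow_succ]; nlinarith
  have htk3 : t ^ (k + 1) < t ^ (k + 2) := by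
    rw [pow_succ t (k + 1)]; nlinarith
  have u1 : max (t ^ k * (p₀ * r ^ k)) (t ^ (k + 1) * (r * q₀ * r ^ k)) ≤ t ^ (k + 1) * M := by
    refine max_le ?_ ?_
    · nlinarith
    · exact mul_le_mul_of_nonneg_left g1 htk1.le
  have u2 : t ^ (k + 2) * (r * q * r ^ (k + 1)) ≤ t ^ (k + 1) * M :=
    (le_max_right _ _).trans (h3.trans u1)
  have v2 : r * q * r ^ (k + 1) < M := by
    by_contra h
    push Not at h
    have : t ^ (k + 2) * M ≤ t ^ (k + 1) * M :=
      (mul_le_mul_of_nonneg_left h (by positivity)).trans u2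
    have := le_of_mul_le_mul_right this hM
    linarith
  have v1 : p * r ^ (k + 1) = M := by
    rcases max_choice (p * r ^ (k + 1)) (r * q * r ^ (k + 1)) with h | h
    · rw [h] at h1; exact h1
    · rw [h] at h1; exact absurd h1 v2.ne
  refine ⟨v1, v2, ?_⟩
  have u3 : t ^ (k + 1) * M ≤
      max (t ^ k * (p₀ * r ^ k)) (t ^ (k + 1) * (r * q₀ * r ^ k)) := by
    refine le_trans ?_ h3
    rw [v1]
    exact le_max_left _ _
  rcases le_max_iff.1 u3 with h | h
  · exfalso
    have : t ^ k * (p₀ * r ^ k) ≤ t ^ k * M := mul_le_mul_of_nonneg_left g0 htk.le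
    nlinarith
  · exact le_antisymm g1 (le_of_mul_le_mul_left h htk1)

end algebra

theorem main : S_NWROOT.{u} → S_NWI.{u} → S_GEN.{u} → S_S2.{u} := by
  intro hroot hnwi hgen K _ _ _ f a c r r' hr hc hrr' hI Z hZa hZZ
  classical
  have hr' : 0 < r' := hr.trans hrr'
  obtain ⟨⟨hM, -, h1, -, -, hle, -, -⟩, hMx, -⟩ := hnwi K f a r hr
  obtain ⟨⟨-, h2, -, -, -, hle', -, -⟩, -⟩ := hnwi K f a r' hr'
  set k := Nw f a r' with hk
  set M := Mx f a r with hMdef
  rw [hI] at h1
  have h3 : vI f a r' (k + 1) ≤ vI f a r' k := by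
    rw [h2]; exact hle' (k + 1)
  obtain ⟨c1, c2, c3⟩ := coeffs f a r r' hr hrr' k M hM h1 (hle k) h3
  -- the Gauss norms
  have gQ1 : r * gn a r f.Q ≤ M := by rw [hMx]; exact le_max_right _ _
  have gP1 : gn a r (f.P - C a * f.Q) ≤ M := by
    conv_rhs => rw [hMx]
    exact le_max_left _ _
  have gQ2 : M ≤ r * gn a r f.Q := by
    rw [← c3, mul_assoc]
    exact mul_le_mul_of_nonneg_left (le_gn a hr.le f.Q k) hr.le
  have gQ : r * gn a r f.Q = M := le_antisymm gQ1 gQ2
  have hQ0 : f.Q ≠ 0 := by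
    intro h
    rw [h, gn_zero, mul_zero] at gQ
    exact hM.ne gQ
  have gβ : ∀ β : K, ‖β - a‖ ≤ r → M ≤ gn a r (f.P - C β * f.Q) := by
    intro β hβ
    refine le_trans ?_ (le_gn a hr.le _ (k + 1))
    have e : (taylor a (f.P - C β * f.Q)).coeff (k + 1) =
        (taylor a (f.P - C a * f.Q)).coeff (k + 1) - (β - a) * (taylor a f.Q).coeff (k + 1) := by
      have : f.P - C β * f.Q = (f.P - C a * f.Q) - C (β - a) * f.Q := by
        rw [C_sub]; ring
      rw [this, map_sub, coeff_sub, taylor_mul, taylor_C, coeff_C_mul]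
    rw [e]
    have hrk : 0 < r ^ (k + 1) := by positivity
    have h4 : ‖(β - a) * (taylor a f.Q).coeff (k + 1)‖ <
        ‖(taylor a (f.P - C a * f.Q)).coeff (k + 1)‖ := by
      rw [norm_mul]
      have h5 : ‖β - a‖ * ‖(taylor a f.Q).coeff (k + 1)‖ ≤ r * ‖(taylor a f.Q).coeff (k + 1)‖ :=
        mul_le_mul_of_nonneg_right hβ (norm_nonneg _)
      refine h5.trans_lt ?_
      rw [← c1] at c2
      exact lt_of_mul_lt_mul_right c2 hrk.le
    have h5 : ‖(taylor a (f.P - C a * f.Q)).coeff (k + 1)‖ ≤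
        ‖(taylor a (f.P - C a * f.Q)).coeff (k + 1) - (β - a) * (taylor a f.Q).coeff (k + 1)‖ := by
      by_contra h
      push Not at h
      have h6 := IsUltrametricDist.norm_add_le_max
        ((taylor a (f.P - C a * f.Q)).coeff (k + 1) - (β - a) * (taylor a f.Q).coeff (k + 1))
        ((β - a) * (taylor a f.Q).coeff (k + 1))
      rw [sub_add_cancel] at h6
      exact absurd h6 (not_le.2 (max_lt h h4))
    calc M = ‖(taylor a (f.P - C a * f.Q)).coeff (k + 1)‖ * r ^ (k + 1) := c1.symm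
      _ ≤ _ := mul_le_mul_of_nonneg_right h5 hrk.le
  -- exceptional sets
  have hBex := fun z : K => hroot K f z c r hr hc
  choose B s₁ s₂ hB using hBex
  obtain ⟨w, hwa, hwZ, hwT⟩ := hgen K a c
    (({f.Q, f.P - C a * f.Q} : Finset K[X]) ∪ (((insert a Z).biUnion B).filter
      (fun β => ‖β - a‖ ≤ r)).image (fun β => f.P - C β * f.Q)) Z
    (by
      rintro rfl
      rw [norm_zero] at hc
      exact hr.ne hc)
    (by
      intro h hh
      have haux : ∀ β : K, ‖β - a‖ ≤ r → f.P - C β * f.Q ≠ 0 := by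
        intro β hβ h0
        have := gβ β hβ
        rw [h0, gn_zero] at this
        linarith
      rw [Finset.mem_union, Finset.mem_insert, Finset.mem_singleton, Finset.mem_image] at hh
      rcases hh with (rfl | rfl) | ⟨β, hβ, rfl⟩
      · exact hQ0
      · exact haux a (by rw [sub_self, norm_zero]; exact hr.le)
      · exact haux β (Finset.mem_filter.1 hβ).2)
  rw [hc] at hwa hwZ hwT
  have hwQ : ‖f.Q.eval w‖ = gn a r f.Q := hwT _ (by simp)
  have hwP : ‖(f.P - C a * f.Q).eval w‖ = gn a r (f.P - C a * f.Q) := hwT _ (by simp)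
  have hgQpos : 0 < gn a r f.Q := by
    by_contra h
    push Not at h
    nlinarith
  have hQw : f.Q.eval w ≠ 0 := by
    intro h
    rw [h, norm_zero] at hwQ
    exact hgQpos.ne hwQ
  set b := f.P.eval w / f.Q.eval w with hb
  have hbsub : ∀ β : K, ‖b - β‖ = ‖(f.P - C β * f.Q).eval w‖ / gn a r f.Q := by
    intro β
    rw [← hwQ, ← norm_div]
    congr 1
    rw [hb]
    simp only [eval_sub, eval_mul, eval_C]
    field_simp
  have hba : ‖b - a‖ ≤ r := by
    rw [hbsub, hwP, div_le_iff₀ hgQpos, gQ]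
    exact gP1
  have hbβ : ∀ z ∈ insert a Z, ∀ β ∈ B z, r ≤ ‖b - β‖ := by
    intro z hz β hβ
    by_cases h : ‖β - a‖ ≤ r
    · have h5 : ‖(f.P - C β * f.Q).eval w‖ = gn a r (f.P - C β * f.Q) := by
        apply hwT
        refine Finset.mem_union_right _ (Finset.mem_image.2 ⟨β, ?_, rfl⟩)
        exact Finset.mem_filter.2 ⟨Finset.mem_biUnion.2 ⟨z, hz, hβ⟩, h⟩
      rw [hbsub, h5, le_div_iff₀ hgQpos, gQ]
      exact gβ β h
    · push Not at h
      by_contra h6
      push Not at h6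
      have e : β - a = (b - a) - (b - β) := by ring
      rw [e] at h
      have := (nsub_le (b - a) (b - β)).trans (max_le hba h6.le)
      linarith
  have hbz : ∀ z ∈ insert a Z, ‖b - z‖ ≤ r := by
    intro z hz
    have hza : ‖z - a‖ ≤ r := by
      rcases Finset.mem_insert.1 hz with rfl | hz
      · rw [sub_self, norm_zero]; exact hr.le
      · exact hZa z hz
    have e : b - z = (b - a) - (z - a) := by ring
    rw [e]
    exact (nsub_le _ _).trans (max_le hba hza)
  have hw0 : (f.P - C b * f.Q).eval w = 0 := by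
    simp only [eval_sub, eval_mul, eval_C, hb]
    field_simp
    ring
  obtain ⟨-, -, -, hBa⟩ := hB a
  obtain ⟨hne, -, -, hIa, -⟩ := hBa b (hbz a (Finset.mem_insert_self _ _))
    (hbβ a (Finset.mem_insert_self _ _))
  have hfin := nIn_le hne hw0 a r Z hwa hwZ hZa hZZ
  rw [hIa] at hfin
  refine le_trans (Nat.add_le_add_right (le_of_eq ?_) 1) hfin
  refine Finset.sum_congr rfl (fun z hz => ?_)
  obtain ⟨-, -, -, hBz⟩ := hB z
  exact (hBz b (hbz z (Finset.mem_insert_of_mem hz))
    (hbβ z (Finset.mem_insert_of_mem hz))).2.1.symm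

end Pool.Agent.W410.BK
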